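import Pool.Agent.H4.MH.Basic

/-!
Circuits indexed by any finite type; circuits reading quantified bits; multiplexers.
-/

namespace Pool.Agent.H27.MH

open Finset
open Pool.Agent.H4.MH

/-- A circuit whose gates are indexed by any finite type. -/
theorem exists_circuit {V T : Type} [Fintype T] {N : ℕ} (hN : Fintype.card T = N)
    (fn : T → (V → Prop) → Prop) (rank : T → ℕ)
    (gate : ∀ i, ∃ (S : Set V) (U : Set T), (∀ j ∈ U, rank j < rank i) ∧
      ((∀ x, fn i x ↔ (∀ v ∈ S, x v) ∧ ∀ j ∈ U, fn j x) ∨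
        (∀ x, fn i x ↔ (∃ v ∈ S, x v) ∨ ∃ j ∈ U, fn j x))) :
    ∃ (C : Circuit V N) (e : T → Fin N), ∀ i, C.fn (e i) = fn i := by
  classical
  subst hN
  set N := Fintype.card T with hN
  let g : T → ℕ ×ₗ Fin N := fun t => toLex (rank t, Fintype.equivFin T t)
  have hg : Function.Injective g := by
    intro a b hab
    have h1 : (rank a, Fintype.equivFin T a) = (rank b, Fintype.equivFin T b) :=
      toLex.injective hab
    exact (Fintype.equivFin T).injective (Prod.ext_iff.1 h1).2
  have hF : (univ.image g).card = N := by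
    rw [Finset.card_image_of_injective _ hg, Finset.card_univ]
  let h : T ≃ (univ.image g : Finset (ℕ ×ₗ Fin N)) := Equiv.ofBijective
    (fun t => ⟨g t, Finset.mem_image_of_mem _ (Finset.mem_univ t)⟩) ⟨fun a b hab =>
      hg (Subtype.ext_iff.1 hab), fun b => by
        obtain ⟨t, _, ht⟩ := Finset.mem_image.1 b.2
        exact ⟨t, Subtype.ext ht⟩⟩
  let e : T ≃ Fin N := h.trans ((univ.image g).orderIsoOfFin hF).symm.toEquiv
  have he : ∀ i j, rank j < rank i → e j < e i := by
    intro i j hij
    show ((univ.image g).orderIsoOfFin hF).symm (h j) < ((univ.image g).orderIsoOfFin hF).symm (h i)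
    rw [OrderIso.lt_iff_lt]
    show g j < g i
    exact Prod.Lex.toLex_lt_toLex.2 (Or.inl hij)
  refine ⟨⟨fun i => fn (e.symm i), fun i => ?_⟩, e, fun i => ?_⟩
  · obtain ⟨S, U, hU, h1⟩ := gate (e.symm i)
    refine ⟨S, {j | e.symm j ∈ U}, ?_, ?_⟩
    · intro j hj
      have := he (e.symm i) (e.symm j) (hU _ hj)
      rwa [Equiv.apply_symm_apply, Equiv.apply_symm_apply] at this
    · rcases h1 with h1 | h1
      · refine Or.inl fun x => ?_
        rw [h1]
        refine and_congr_right fun _ => ?_
        constructor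
        · intro h2 j hj
          exact h2 _ hj
        · intro h2 j hj
          have := h2 (e j) (by
            show e.symm (e j) ∈ U
            rwa [Equiv.symm_apply_apply])
          rwa [Equiv.symm_apply_apply] at this
      · refine Or.inr fun x => ?_
        rw [h1]
        refine or_congr_right ?_
        constructor
        · rintro ⟨j, hj, h2⟩
          refine ⟨e j, ?_, ?_⟩
          · show e.symm (e j) ∈ U
            rwa [Equiv.symm_apply_apply]
          · rwa [Equiv.symm_apply_apply]
        · rintro ⟨j, hj, h2⟩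
          exact ⟨_, hj, h2⟩
  · show fn (e.symm (e i)) = fn i
    rw [Equiv.symm_apply_apply]

/-- The literals of a string of bits: `(i, c)` is true if bit number `i` is `c`. -/
def lits (y : List Bool) : ℕ × Bool → Prop := fun p => y[p.1]? = some p.2

/-- `P y x` is computed by one circuit with `s` gates, monotone in `x`, reading the literals of
the string `y` of length `T`. -/
def Calc (V : Type) (T s : ℕ) (P : List Bool → (V → Prop) → Prop) : Prop :=
  ∃ (C : Circuit (V ⊕ (ℕ × Bool)) s) (out : Fin s), ∀ y : List Bool, y.length = T →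
    ∀ x, P y x ↔ C.fn out (Sum.elim x (lits y))

/-- The code of a part of a string. -/
theorem chunk_iff {y : List Bool} {off q : ℕ} (_h : off + q ≤ y.length) (c : Fin q → Bool) :
    (∀ j : Fin q, lits y (off + j.1, c j)) ↔ (y.drop off).take q = List.ofFn c := by
  have key : ∀ j : Fin q, ((y.drop off).take q)[j.1]? = y[off + j.1]? := by
    intro j
    rw [List.getElem?_take_of_lt j.2, List.getElem?_drop]
  constructor
  · intro h1
    refine List.ext_getElem? fun i => ?_
    by_cases hi : i < q
    · have h2 := key ⟨i, hi⟩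
      have h3 : y[off + i]? = some (c ⟨i, hi⟩) := h1 ⟨i, hi⟩
      rw [h2, h3, List.getElem?_ofFn, dif_pos hi]
    · rw [List.getElem?_eq_none, List.getElem?_eq_none]
      · rw [List.length_ofFn]
        omega
      · rw [List.length_take]
        omega
  · intro h1 j
    show y[off + j.1]? = some (c j)
    rw [← key j, h1, List.getElem?_ofFn, dif_pos j.2]

/-- A multiplexer. -/
theorem mux {V : Type} {T s m q : ℕ} {P : List Bool → (V → Prop) → Prop} (h : Calc V T s P)
    (dec : List Bool → Fin m) :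
    Calc (Fin m × V) (q + T) (m * s + (2 ^ q + 1))
      (fun y x => P (y.drop q) fun v => x (dec (y.take q), v)) := by
  classical
  obtain ⟨C, out, hC⟩ := h
  let sub : Fin m → V ⊕ (ℕ × Bool) → (Fin m × V) ⊕ (ℕ × Bool) := fun i =>
    Sum.elim (fun v => Sum.inl (i, v)) (fun p => Sum.inr (p.1 + q, p.2))
  let g : (Fin q → Bool) → ((Fin m × V) ⊕ (ℕ × Bool) → Prop) → Prop := fun c w =>
    (∀ j : Fin q, w (Sum.inr (j.1, c j))) ∧ C.fn out fun u => w (sub (dec (List.ofFn c)) u)
  let fn : (Fin m × Fin s) ⊕ ((Fin q → Bool) ⊕ Unit) →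
      ((Fin m × V) ⊕ (ℕ × Bool) → Prop) → Prop :=
    Sum.elim (fun p w => C.fn p.2 fun u => w (sub p.1 u))
      (Sum.elim g fun _ w => ∃ c, g c w)
  let rank : (Fin m × Fin s) ⊕ ((Fin q → Bool) ⊕ Unit) → ℕ :=
    Sum.elim (fun p => p.2.1) (Sum.elim (fun _ => s) fun _ => s + 1)
  have hcard : Fintype.card ((Fin m × Fin s) ⊕ ((Fin q → Bool) ⊕ Unit)) =
      m * s + (2 ^ q + 1) := by
    simp
  obtain ⟨C', e, hC'⟩ := exists_circuit hcard fn rank (by
    rintro (⟨i, j⟩ | c | u)
    · obtain ⟨S, U, hU, h1⟩ := C.gate j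
      refine ⟨sub i '' S, (fun j' => Sum.inl (i, j')) '' U, ?_, ?_⟩
      · rintro _ ⟨j', hj', rfl⟩
        exact hU j' hj'
      · rcases h1 with h1 | h1
        · refine Or.inl fun w => ?_
          show C.fn j _ ↔ _
          rw [h1]
          constructor
          · rintro ⟨h2, h3⟩
            refine ⟨?_, ?_⟩
            · rintro _ ⟨v, hv, rfl⟩
              exact h2 v hv
            · rintro _ ⟨j', hj', rfl⟩
              exact h3 j' hj'
          · rintro ⟨h2, h3⟩
            exact ⟨fun v hv => h2 _ ⟨v, hv, rfl⟩, fun j' hj' => h3 _ ⟨j', hj', rfl⟩⟩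
        · refine Or.inr fun w => ?_
          show C.fn j _ ↔ _
          rw [h1]
          constructor
          · rintro (⟨v, hv, h2⟩ | ⟨j', hj', h2⟩)
            · exact Or.inl ⟨_, ⟨v, hv, rfl⟩, h2⟩
            · exact Or.inr ⟨_, ⟨j', hj', rfl⟩, h2⟩
          · rintro (⟨_, ⟨v, hv, rfl⟩, h2⟩ | ⟨_, ⟨j', hj', rfl⟩, h2⟩)
            · exact Or.inl ⟨v, hv, h2⟩
            · exact Or.inr ⟨j', hj', h2⟩
    · refine ⟨Set.range fun j : Fin q => Sum.inr (j.1, c j),
        {Sum.inl (dec (List.ofFn c), out)}, ?_, Or.inl fun w => ?_⟩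
      · rintro _ rfl
        exact out.2
      · constructor
        · rintro ⟨h2, h3⟩
          refine ⟨?_, ?_⟩
          · rintro _ ⟨j, rfl⟩
            exact h2 j
          · rintro _ rfl
            exact h3
        · rintro ⟨h2, h3⟩
          exact ⟨fun j => h2 _ ⟨j, rfl⟩, h3 _ rfl⟩
    · refine ⟨∅, Set.range fun c => Sum.inr (Sum.inl c), ?_, Or.inr fun w => ?_⟩
      · rintro _ ⟨c, rfl⟩
        exact Nat.lt_succ_self s
      · constructor
        · rintro ⟨c, hc⟩
          exact Or.inr ⟨_, ⟨c, rfl⟩, hc⟩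
        · rintro (⟨v, hv, _⟩ | ⟨_, ⟨c, rfl⟩, hc⟩)
          · exact absurd hv (Set.notMem_empty v)
          · exact ⟨c, hc⟩)
  refine ⟨C', e (Sum.inr (Sum.inr ())), fun y hy x => ?_⟩
  rw [hC']
  show _ ↔ ∃ c, g c (Sum.elim x (lits y))
  have hlen : (y.drop q).length = T := by
    rw [List.length_drop]
    omega
  have hlift : ∀ i : Fin m, (fun u => Sum.elim x (lits y) (sub i u)) =
      Sum.elim (fun v => x (i, v)) (lits (y.drop q)) := by
    intro i
    funext u
    rcases u with v | ⟨j, c⟩
    · rfl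
    · show (y[j + q]? = some c) = ((y.drop q)[j]? = some c)
      rw [List.getElem?_drop, Nat.add_comm]
  have hcode : ∀ c : Fin q → Bool,
      (∀ j : Fin q, (Sum.elim x (lits y) : (Fin m × V) ⊕ (ℕ × Bool) → Prop)
        (Sum.inr (j.1, c j))) ↔ y.take q = List.ofFn c := by
    intro c
    have h1 := chunk_iff (y := y) (off := 0) (q := q) (by omega) c
    rw [List.drop_zero] at h1
    rw [← h1]
    refine forall_congr' fun j => ?_
    show lits y (j.1, c j) ↔ lits y (0 + j.1, c j)
    rw [Nat.zero_add]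
  constructor
  · intro hP
    have hq : (y.take q).length = q := by
      rw [List.length_take]
      omega
    obtain ⟨c, hc⟩ : ∃ c : Fin q → Bool, y.take q = List.ofFn c := by
      refine ⟨fun j => (y.take q)[j.1]'(by rw [hq]; exact j.2), ?_⟩
      refine List.ext_getElem (by rw [List.length_ofFn, hq]) fun i h1 h2 => ?_
      rw [List.getElem_ofFn]
    refine ⟨c, (hcode c).2 hc, ?_⟩
    rw [hlift, ← hC _ hlen, ← hc]
    exact hP
  · rintro ⟨c, h1, h2⟩
    have hc := (hcode c).1 h1
    rw [hlift, ← hC _ hlen, ← hc] at h2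
    exact h2

/-- Duality. -/
theorem Calc.dual {V : Type} {T s : ℕ} {P : List Bool → (V → Prop) → Prop} (h : Calc V T s P) :
    Calc V T s (fun y x => ¬ P y fun v => ¬ x v) := by
  classical
  obtain ⟨C, out, hC⟩ := h
  let σ : V ⊕ (ℕ × Bool) → (V ⊕ (ℕ × Bool) → Prop) → Prop :=
    Sum.elim (fun v x => x (Sum.inl v))
      (fun p x => if p.1 < T then x (Sum.inr (p.1, !p.2)) else True)
  have hσ : IsSub σ := by
    rintro (v | ⟨i, c⟩)
    · exact Or.inl ⟨Sum.inl v, fun x => Iff.rfl⟩
    · by_cases hi : i < T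
      · refine Or.inl ⟨Sum.inr (i, !c), fun x => ?_⟩
        show (if i < T then x (Sum.inr (i, !c)) else True) ↔ _
        rw [if_pos hi]
      · refine Or.inr (Or.inl fun x => ?_)
        show (if i < T then x (Sum.inr (i, !c)) else True)
        rw [if_neg hi]
        trivial
  refine ⟨(C.dual).subst hσ, out, fun y hy x => ?_⟩
  show (¬ P y fun v => ¬ x v) ↔ ¬ C.fn out fun v => ¬ σ v (Sum.elim x (lits y))
  rw [hC y hy]
  have : (Sum.elim (fun v => ¬ x v) (lits y) : V ⊕ (ℕ × Bool) → Prop) =
      fun v => ¬ σ v (Sum.elim x (lits y)) := by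
    funext u
    rcases u with v | ⟨i, c⟩
    · rfl
    · show (y[i]? = some c) = ¬ (if i < T then (y[i]? = some !c) else True)
      by_cases hi : i < T
      · rw [if_pos hi]
        have hi' : i < y.length := by omega
        rw [List.getElem?_eq_getElem hi']
        cases c <;> cases y[i] <;> simp
      · rw [if_neg hi, List.getElem?_eq_none (by omega)]
        simp
  rw [this]

end Pool.Agent.H27.MH
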