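import Pool.Agent.H27.MH.Upper

/-!
With one bit more for every variable monotone circuits with quantified bits are as strong as
general circuits with quantified bits, as far as monotone functions are concerned.
-/

namespace Pool.Agent.H27.MH

open Finset
open Pool.Agent.H4.MH

section

variable {V : Type} [Fintype V]

/-- The set of variables coded by the first bits of a string. -/
def coded (idx : V ≃ Fin (Fintype.card V)) (y : List Bool) (v : V) : Prop :=
  y[(idx v).1]? = some true

theorem coded_append {idx : V ≃ Fin (Fintype.card V)} {y z : List Bool}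
    (hy : Fintype.card V ≤ y.length) (v : V) : coded idx (y ++ z) v ↔ coded idx y v := by
  unfold coded
  rw [List.getElem?_append_left (by
    have := (idx v).2
    omega)]

theorem not_coded_iff {idx : V ≃ Fin (Fintype.card V)} {y : List Bool}
    (hy : Fintype.card V ≤ y.length) (v : V) :
    ¬ coded idx y v ↔ y[(idx v).1]? = some false := by
  have h : (idx v).1 < y.length := by
    have := (idx v).2
    omega
  unfold coded
  rw [List.getElem?_eq_getElem h]
  cases y[(idx v).1] <;> simp

theorem exists_code (idx : V ≃ Fin (Fintype.card V)) (A : V → Prop) :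
    ∃ y : List Bool, y.length = Fintype.card V ∧ ∀ v, coded idx y v ↔ A v := by
  classical
  refine ⟨List.ofFn fun i => decide (A (idx.symm i)), List.length_ofFn, fun v => ?_⟩
  unfold coded
  rw [List.getElem?_ofFn, dif_pos (idx v).2]
  have : (⟨(idx v).1, (idx v).2⟩ : Fin (Fintype.card V)) = idx v := rfl
  rw [this, Equiv.symm_apply_apply]
  simp

/-- **Everything with one quantifier.** Every monotone function of `x` is computed by one
quantifier over `card V` bits before a circuit with one gate. -/
theorem all_mem (f : (V → Prop) → Prop) (hf : ∀ x y : V → Prop, (∀ v, x v → y v) → f x → f y)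
    (b : Bool) :
    ∃ C : List Bool → Circuit V 1, ∀ x, f x ↔ Quant b [Fintype.card V] fun y => (C y).fn 0 x := by
  classical
  let idx := Fintype.equivFin V
  have h0 : ∀ j ∈ (∅ : Set (Fin 1)), j < 0 := fun j hj => absurd hj (Set.notMem_empty j)
  cases b with
  | true =>
    refine ⟨fun y => ⟨fun _ x => f (coded idx y) ∧ ∀ v, coded idx y v → x v, fun i => ?_⟩,
      fun x => ?_⟩
    · by_cases hy : f (coded idx y)
      · refine ⟨{v | coded idx y v}, ∅, fun j hj => absurd hj (Set.notMem_empty j),
          Or.inl fun x => ?_⟩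
        exact ⟨fun h => ⟨fun v hv => h.2 v hv, fun j hj => absurd hj (Set.notMem_empty j)⟩,
          fun h => ⟨hy, fun v hv => h.1 v hv⟩⟩
      · refine ⟨∅, ∅, fun j hj => absurd hj (Set.notMem_empty j), Or.inr fun x => ?_⟩
        constructor
        · intro h
          exact absurd h.1 hy
        · rintro (⟨v, hv, _⟩ | ⟨j, hj, _⟩)
          · exact absurd hv (Set.notMem_empty v)
          · exact absurd hj (Set.notMem_empty j)
    · constructor
      · intro hx
        obtain ⟨y, hy, h⟩ := exists_code idx x
        refine ⟨y, hy, ?_⟩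
        show f (coded idx (y ++ [])) ∧ ∀ v, coded idx (y ++ []) v → x v
        rw [List.append_nil]
        refine ⟨?_, fun v hv => (h v).1 hv⟩
        rwa [show coded idx y = x from funext fun v => propext (h v)]
      · rintro ⟨y, _, h⟩
        exact hf _ _ h.2 h.1
  | false =>
    refine ⟨fun y => ⟨fun _ x => f (coded idx y) ∨ ∃ v, ¬ coded idx y v ∧ x v, fun i => ?_⟩,
      fun x => ?_⟩
    · by_cases hy : f (coded idx y)
      · refine ⟨∅, ∅, fun j hj => absurd hj (Set.notMem_empty j), Or.inl fun x => ?_⟩
        exact ⟨fun _ => ⟨fun v hv => absurd hv (Set.notMem_empty v),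
          fun j hj => absurd hj (Set.notMem_empty j)⟩, fun _ => Or.inl hy⟩
      · refine ⟨{v | ¬ coded idx y v}, ∅, fun j hj => absurd hj (Set.notMem_empty j),
          Or.inr fun x => ?_⟩
        constructor
        · rintro (h | ⟨v, hv, h⟩)
          · exact absurd h hy
          · exact Or.inl ⟨v, hv, h⟩
        · rintro (⟨v, hv, h⟩ | ⟨j, hj, _⟩)
          · exact Or.inr ⟨v, hv, h⟩
          · exact absurd hj (Set.notMem_empty j)
    · constructor
      · intro hx y _
        show f (coded idx (y ++ [])) ∨ ∃ v, ¬ coded idx (y ++ []) v ∧ x v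
        by_contra hcon
        push Not at hcon
        refine hcon.1 (hf _ _ (fun v hv => ?_) hx)
        by_contra h
        exact hcon.2 v h hv
      · intro h
        obtain ⟨y, hy, hyx⟩ := exists_code idx x
        have h1 : f (coded idx (y ++ [])) ∨ ∃ v, ¬ coded idx (y ++ []) v ∧ x v := h y hy
        rw [List.append_nil] at h1
        rcases h1 with h1 | ⟨v, h1, h2⟩
        · rwa [show coded idx y = x from funext fun v => propext (hyx v)] at h1
        · exact absurd ((hyx v).2 h2) h1

/-- The literals of `x`. -/
def xlit (x : V → Prop) : V × Bool → Prop := fun p => x p.1 ↔ p.2 = true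

/-- General circuits, whose first quantifier is existential, become monotone. -/
theorem general_true {q s : ℕ} {qs : List ℕ} {P : List Bool → (V × Bool → Prop) → Prop}
    (hP : Calc (V × Bool) (q + qs.sum) s P)
    (f : (V → Prop) → Prop) (hf : ∀ x y : V → Prop, (∀ v, x v → y v) → f x → f y)
    (h : ∀ x, f x ↔ Quant true (q :: qs) fun y => P y (xlit x)) :
    ∃ P' : List Bool → (V → Prop) → Prop,
      Calc V (Fintype.card V + q + qs.sum) (s + (Fintype.card V + 1)) P' ∧
      ∀ x, f x ↔ Quant true ((Fintype.card V + q) :: qs) fun y => P' y x := by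
  classical
  set N := Fintype.card V with hN
  let idx : V ≃ Fin (Fintype.card V) := Fintype.equivFin V
  obtain ⟨C, out, hC⟩ := hP
  refine ⟨fun y x => (∀ v, coded idx y v → x v) ∧ P (y.drop N) (xlit (coded idx y)), ?_,
    fun x => ?_⟩
  · let W := V ⊕ (ℕ × Bool)
    let sub : (V × Bool) ⊕ (ℕ × Bool) → W :=
      Sum.elim (fun p => Sum.inr ((idx p.1).1, p.2)) (fun p => Sum.inr (p.1 + N, p.2))
    let g : V → (W → Prop) → Prop := fun v w => w (Sum.inl v) ∨ w (Sum.inr ((idx v).1, false))
    let fn : Fin s ⊕ (V ⊕ Unit) → (W → Prop) → Prop :=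
      Sum.elim (fun j w => C.fn j fun u => w (sub u))
        (Sum.elim g fun _ w => (∀ v, g v w) ∧ C.fn out fun u => w (sub u))
    let rank : Fin s ⊕ (V ⊕ Unit) → ℕ := Sum.elim (fun j => j.1) (Sum.elim (fun _ => s)
      fun _ => s + 1)
    have hcard : Fintype.card (Fin s ⊕ (V ⊕ Unit)) = s + (N + 1) := by
      rw [Fintype.card_sum, Fintype.card_sum, Fintype.card_fin, Fintype.card_unit]
    obtain ⟨C', e, hC'⟩ := exists_circuit hcard fn rank (by
      rintro (j | v | u)
      · obtain ⟨S, U, hU, h1⟩ := C.gate j
        refine ⟨sub '' S, Sum.inl '' U, ?_, ?_⟩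
        · rintro _ ⟨j', hj', rfl⟩
          exact hU j' hj'
        · rcases h1 with h1 | h1
          · refine Or.inl fun w => ?_
            show C.fn j _ ↔ _
            rw [h1]
            constructor
            · rintro ⟨h2, h3⟩
              refine ⟨?_, ?_⟩
              · rintro _ ⟨v, hv, rfl⟩
                exact h2 v hv
              · rintro _ ⟨j', hj', rfl⟩
                exact h3 j' hj'
            · rintro ⟨h2, h3⟩
              exact ⟨fun v hv => h2 _ ⟨v, hv, rfl⟩, fun j' hj' => h3 _ ⟨j', hj', rfl⟩⟩
          · refine Or.inr fun w => ?_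
            show C.fn j _ ↔ _
            rw [h1]
            constructor
            · rintro (⟨v, hv, h2⟩ | ⟨j', hj', h2⟩)
              · exact Or.inl ⟨_, ⟨v, hv, rfl⟩, h2⟩
              · exact Or.inr ⟨_, ⟨j', hj', rfl⟩, h2⟩
            · rintro (⟨_, ⟨v, hv, rfl⟩, h2⟩ | ⟨_, ⟨j', hj', rfl⟩, h2⟩)
              · exact Or.inl ⟨v, hv, h2⟩
              · exact Or.inr ⟨j', hj', h2⟩
      · refine ⟨{Sum.inl v, Sum.inr ((idx v).1, false)}, ∅,
          fun j hj => absurd hj (Set.notMem_empty j), Or.inr fun w => ?_⟩
        constructor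
        · rintro (h1 | h1)
          · exact Or.inl ⟨_, Or.inl rfl, h1⟩
          · exact Or.inl ⟨_, Or.inr rfl, h1⟩
        · rintro (⟨_, rfl | rfl, h1⟩ | ⟨j, hj, _⟩)
          · exact Or.inl h1
          · exact Or.inr h1
          · exact absurd hj (Set.notMem_empty j)
      · refine ⟨∅, insert (Sum.inl out) (Set.range fun v => Sum.inr (Sum.inl v)), ?_,
          Or.inl fun w => ?_⟩
        · rintro _ (rfl | ⟨v, rfl⟩)
          · exact out.2.trans (Nat.lt_succ_self s)
          · exact Nat.lt_succ_self s
        · constructor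
          · rintro ⟨h1, h2⟩
            refine ⟨fun v hv => absurd hv (Set.notMem_empty v), ?_⟩
            rintro _ (rfl | ⟨v, rfl⟩)
            · exact h2
            · exact h1 v
          · rintro ⟨_, h1⟩
            exact ⟨fun v => h1 _ (Or.inr ⟨v, rfl⟩), h1 _ (Or.inl rfl)⟩)
    refine ⟨C', e (Sum.inr (Sum.inr ())), fun y hy x => ?_⟩
    rw [hC']
    show _ ↔ (∀ v, g v (Sum.elim x (lits y))) ∧ C.fn out fun u => Sum.elim x (lits y) (sub u)
    have hyN : Fintype.card V ≤ y.length := by omega
    have hlift : (fun u => Sum.elim x (lits y) (sub u)) =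
        Sum.elim (xlit (coded idx y)) (lits (y.drop N)) := by
      funext u
      rcases u with ⟨v, c⟩ | ⟨j, c⟩
      · show (y[(idx v).1]? = some c) = (coded idx y v ↔ c = true)
        cases c
        · rw [← not_coded_iff hyN v]
          simp
        · show coded idx y v = _
          simp
      · show (y[j + N]? = some c) = ((y.drop N)[j]? = some c)
        rw [List.getElem?_drop, Nat.add_comm]
    have hlen : (y.drop N).length = q + qs.sum := by
      rw [List.length_drop]
      omega
    rw [hlift, ← hC _ hlen]
    refine and_congr_left fun _ => forall_congr' fun v => ?_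
    show (coded idx y v → x v) ↔ (x v ∨ y[(idx v).1]? = some false)
    rw [← not_coded_iff hyN v]
    tauto
  · rw [show (Quant true ((N + q) :: qs) fun y =>
        (∀ v, coded idx y v → x v) ∧ P (y.drop N) (xlit (coded idx y))) ↔
        ∃ y : List Bool, y.length = N + q ∧ Quant false qs fun z =>
          (∀ v, coded idx (y ++ z) v → x v) ∧
            P ((y ++ z).drop N) (xlit (coded idx (y ++ z))) from Iff.rfl]
    have key : ∀ y : List Bool, y.length = N + q → ((Quant false qs fun z =>
          (∀ v, coded idx (y ++ z) v → x v) ∧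
            P ((y ++ z).drop N) (xlit (coded idx (y ++ z)))) ↔
        (∀ v, coded idx y v → x v) ∧ Quant false qs fun z =>
          P (y.drop N ++ z) (xlit (coded idx y))) := by
      intro y hy
      rw [← quant_and]
      refine quant_congr _ _ fun z _ => ?_
      have e1 : coded idx (y ++ z) = coded idx y := funext fun v =>
        propext (coded_append (by omega) v)
      rw [e1, List.drop_append_of_le_length (by omega)]
    constructor
    · intro hx
      obtain ⟨y₁, hy₁, h1⟩ := (h x).1 hx
      obtain ⟨y₀, hy₀, h0⟩ := exists_code idx x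
      have e0 : coded idx y₀ = x := funext fun v => propext (h0 v)
      refine ⟨y₀ ++ y₁, by rw [List.length_append, hy₀, hy₁], ?_⟩
      rw [key _ (by rw [List.length_append, hy₀, hy₁])]
      have e1 : coded idx (y₀ ++ y₁) = x := by
        rw [← e0]
        exact funext fun v => propext (coded_append (by omega) v)
      rw [e1, List.drop_left' (by rw [hy₀])]
      exact ⟨fun v hv => hv, h1⟩
    · rintro ⟨y, hy, h1⟩
      rw [key y hy] at h1
      refine hf _ _ h1.1 ((h _).2 ⟨y.drop N, ?_, h1.2⟩)
      rw [List.length_drop]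
      omega

/-- **General circuits.** If a monotone function is computed by one circuit with negated
variables and quantified bits then it is computed by one circuit, monotone in `x`, with the same
quantifiers and `card V` more bits in the first block. -/
theorem general_mem (f : (V → Prop) → Prop)
    (hf : ∀ x y : V → Prop, (∀ v, x v → y v) → f x → f y) (b : Bool) (q s : ℕ) (qs : List ℕ)
    (D : Circuit ((V × Bool) ⊕ (ℕ × Bool)) s) (out : Fin s)
    (hD : ∀ x, f x ↔ Quant b (q :: qs) fun y =>
      D.fn out (Sum.elim (fun p => x p.1 ↔ p.2 = true) fun p => y[p.1]? = some p.2)) :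
    ∃ (C : Circuit (V ⊕ (ℕ × Bool)) (s + (Fintype.card V + 1)))
      (out' : Fin (s + (Fintype.card V + 1))),
      ∀ x, f x ↔ Quant b ((Fintype.card V + q) :: qs) fun y =>
        C.fn out' (Sum.elim x fun p => y[p.1]? = some p.2) := by
  classical
  let P : List Bool → (V × Bool → Prop) → Prop := fun y w => D.fn out (Sum.elim w (lits y))
  have hP : Calc (V × Bool) (q + qs.sum) s P := ⟨D, out, fun y _ w => Iff.rfl⟩
  have hfin : ∀ {T : ℕ} {P' : List Bool → (V → Prop) → Prop} {qs' : List ℕ},
      Calc V T (s + (Fintype.card V + 1)) P' → qs'.sum = T →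
      (∀ x, f x ↔ Quant b qs' fun y => P' y x) →
      ∃ (C : Circuit (V ⊕ (ℕ × Bool)) (s + (Fintype.card V + 1)))
        (out' : Fin (s + (Fintype.card V + 1))),
        ∀ x, f x ↔ Quant b qs' fun y =>
          C.fn out' (Sum.elim x fun p => y[p.1]? = some p.2) := by
    rintro T P' qs' ⟨C, out', hC⟩ rfl h
    refine ⟨C, out', fun x => ?_⟩
    rw [h]
    exact quant_congr _ _ fun y hy => hC y hy x
  cases b with
  | true =>
    obtain ⟨P', hP', h⟩ := general_true hP f hf hD
    exact hfin hP' (by rw [List.sum_cons]) h
  | false =>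
    let f' : (V → Prop) → Prop := fun x => ¬ f fun v => ¬ x v
    have hf' : ∀ x y : V → Prop, (∀ v, x v → y v) → f' x → f' y := by
      intro x y hxy hx hy
      exact hx (hf _ _ (fun v hv hx' => hv (hxy v hx')) hy)
    have h' : ∀ x, f' x ↔ Quant true (q :: qs) fun y => ¬ P y fun v => ¬ xlit x v := by
      intro x
      have h1 := quant_not (q :: qs) false fun y => P y fun v => ¬ xlit x v
      rw [Bool.not_false] at h1
      rw [h1]
      show ¬ f (fun v => ¬ x v) ↔ _
      rw [hD]
      have e : (fun p : V × Bool => ((fun v => ¬ x v) p.1 ↔ p.2 = true)) =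
          fun v => ¬ xlit x v := by
        funext p
        show (¬ x p.1 ↔ p.2 = true) = ¬ (x p.1 ↔ p.2 = true)
        exact propext (by tauto)
      rw [e]
      exact Iff.rfl
    obtain ⟨P', hP', h⟩ := general_true hP.dual f' hf' h'
    refine hfin hP'.dual (by rw [List.sum_cons]) fun x => ?_
    have h2 := quant_not ((Fintype.card V + q) :: qs) true fun y => P' y fun v => ¬ x v
    rw [Bool.not_true] at h2
    rw [h2, ← h]
    show f x ↔ ¬ ¬ f fun v => ¬ ¬ x v
    rw [not_not]
    simp only [not_not]

end

end Pool.Agent.H27.MH
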