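import Pool.Agent.H27.MH.Circ

/-!
The clique function with quantified vertices.
-/

namespace Pool.Agent.H27.MH

open Finset
open Pool.Agent.H4.MH

/-- Number `a` of the parts of length `q` of a string. -/
def part (q a : ℕ) (z : List Bool) : List Bool := (z.drop (a * q)).take q

/-- The parts of the string `z` code the vertices of a clique. -/
def Leaf {n : ℕ} (k q : ℕ) (dec : List Bool → Fin n) (z : List Bool)
    (x : Sym2 (Fin n) → Prop) : Prop :=
  ∀ a b : Fin k, a < b → dec (part q a.1 z) ≠ dec (part q b.1 z) ∧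
    x s(dec (part q a.1 z), dec (part q b.1 z))

theorem leaf_calc {n : ℕ} (k q : ℕ) (dec : List Bool → Fin n) :
    Calc (Sym2 (Fin n)) (k * q) (k * k * (2 ^ q * 2 ^ q) + (k * k + 1)) (Leaf k q dec) := by
  classical
  let W := Sym2 (Fin n) ⊕ (ℕ × Bool)
  let D : (Fin q → Bool) → Fin n := fun c => dec (List.ofFn c)
  let g : (Fin k × Fin k) × ((Fin q → Bool) × (Fin q → Bool)) → (W → Prop) → Prop := fun p w =>
    ((∀ j : Fin q, w (Sum.inr (p.1.1.1 * q + j.1, p.2.1 j))) ∧
      ∀ j : Fin q, w (Sum.inr (p.1.2.1 * q + j.1, p.2.2 j))) ∧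
      D p.2.1 ≠ D p.2.2 ∧ w (Sum.inl s(D p.2.1, D p.2.2))
  let h : Fin k × Fin k → (W → Prop) → Prop := fun p w => ∃ c, g (p, c) w
  let fn : ((Fin k × Fin k) × ((Fin q → Bool) × (Fin q → Bool))) ⊕ ((Fin k × Fin k) ⊕ Unit) →
      (W → Prop) → Prop :=
    Sum.elim g (Sum.elim h fun _ w => ∀ p : Fin k × Fin k, p.1 < p.2 → h p w)
  let rank : ((Fin k × Fin k) × ((Fin q → Bool) × (Fin q → Bool))) ⊕ ((Fin k × Fin k) ⊕ Unit) →
      ℕ := Sum.elim (fun _ => 0) (Sum.elim (fun _ => 1) fun _ => 2)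
  have hcard : Fintype.card (((Fin k × Fin k) × ((Fin q → Bool) × (Fin q → Bool))) ⊕
      ((Fin k × Fin k) ⊕ Unit)) = k * k * (2 ^ q * 2 ^ q) + (k * k + 1) := by
    simp
  obtain ⟨C', e, hC'⟩ := exists_circuit hcard fn rank (by
    rintro (⟨⟨a, b⟩, ⟨c, d⟩⟩ | p | u)
    · by_cases hcd : D c = D d
      · refine ⟨∅, ∅, fun j hj => absurd hj (Set.notMem_empty j), Or.inr fun w => ?_⟩
        constructor
        · rintro ⟨_, h2, _⟩
          exact absurd hcd h2
        · rintro (⟨v, hv, _⟩ | ⟨j, hj, _⟩)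
          · exact absurd hv (Set.notMem_empty v)
          · exact absurd hj (Set.notMem_empty j)
      · refine ⟨(Set.range fun j : Fin q => Sum.inr (a.1 * q + j.1, c j)) ∪
          ((Set.range fun j : Fin q => Sum.inr (b.1 * q + j.1, d j)) ∪ {Sum.inl s(D c, D d)}),
          ∅, fun j hj => absurd hj (Set.notMem_empty j), Or.inl fun w => ?_⟩
        constructor
        · rintro ⟨⟨h1, h2⟩, _, h3⟩
          refine ⟨?_, fun j hj => absurd hj (Set.notMem_empty j)⟩
          rintro _ (⟨j, rfl⟩ | ⟨j, rfl⟩ | rfl)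
          · exact h1 j
          · exact h2 j
          · exact h3
        · rintro ⟨h1, _⟩
          exact ⟨⟨fun j => h1 _ (Or.inl ⟨j, rfl⟩), fun j => h1 _ (Or.inr (Or.inl ⟨j, rfl⟩))⟩,
            hcd, h1 _ (Or.inr (Or.inr rfl))⟩
    · refine ⟨∅, Set.range fun c => Sum.inl (p, c), ?_, Or.inr fun w => ?_⟩
      · rintro _ ⟨c, rfl⟩
        exact Nat.zero_lt_one
      · constructor
        · rintro ⟨c, hc⟩
          exact Or.inr ⟨_, ⟨c, rfl⟩, hc⟩
        · rintro (⟨v, hv, _⟩ | ⟨_, ⟨c, rfl⟩, hc⟩)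
          · exact absurd hv (Set.notMem_empty v)
          · exact ⟨c, hc⟩
    · refine ⟨∅, (fun p => Sum.inr (Sum.inl p)) '' {p : Fin k × Fin k | p.1 < p.2}, ?_,
        Or.inl fun w => ?_⟩
      · rintro _ ⟨p, _, rfl⟩
        exact Nat.one_lt_two
      · constructor
        · intro h1
          refine ⟨fun v hv => absurd hv (Set.notMem_empty v), ?_⟩
          rintro _ ⟨p, hp, rfl⟩
          exact h1 p hp
        · rintro ⟨_, h1⟩ p hp
          exact h1 _ ⟨p, hp, rfl⟩)
  refine ⟨C', e (Sum.inr (Sum.inr ())), fun y hy x => ?_⟩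
  rw [hC']
  show _ ↔ ∀ p : Fin k × Fin k, p.1 < p.2 → h p (Sum.elim x (lits y))
  have hoff : ∀ a : Fin k, a.1 * q + q ≤ y.length := by
    intro a
    have h1 : (a.1 + 1) * q ≤ k * q := Nat.mul_le_mul_right _ a.2
    have h2 : (a.1 + 1) * q = a.1 * q + q := by ring
    omega
  have hex : ∀ a : Fin k, ∃ c : Fin q → Bool, part q a.1 y = List.ofFn c := by
    intro a
    have h1 := hoff a
    have hq : (part q a.1 y).length = q := by
      unfold part
      rw [List.length_take, List.length_drop]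
      omega
    refine ⟨fun j => (part q a.1 y)[j.1]'(by rw [hq]; exact j.2), ?_⟩
    refine List.ext_getElem (by rw [List.length_ofFn, hq]) fun i h1 h2 => ?_
    rw [List.getElem_ofFn]
  have key : ∀ a b : Fin k, h (a, b) (Sum.elim x (lits y)) ↔
      (dec (part q a.1 y) ≠ dec (part q b.1 y) ∧
        x s(dec (part q a.1 y), dec (part q b.1 y))) := by
    intro a b
    constructor
    · rintro ⟨⟨c, d⟩, ⟨h1, h2⟩, h3, h4⟩
      have e1 : part q a.1 y = List.ofFn c := (chunk_iff (hoff a) c).1 h1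
      have e2 : part q b.1 y = List.ofFn d := (chunk_iff (hoff b) d).1 h2
      rw [e1, e2]
      exact ⟨h3, h4⟩
    · rintro ⟨h3, h4⟩
      obtain ⟨c, hc⟩ := hex a
      obtain ⟨d, hd⟩ := hex b
      rw [hc, hd] at h3 h4
      exact ⟨(c, d), ⟨(chunk_iff (hoff a) c).2 hc, (chunk_iff (hoff b) d).2 hd⟩, h3, h4⟩
  constructor
  · rintro h1 ⟨a, b⟩ hab
    exact (key a b).2 (h1 a b hab)
  · intro h1 a b hab
    exact (key a b).1 (h1 (a, b) hab)

/-- Codes. -/
theorem exists_dec (m : ℕ) (hm : 0 < m) : ∃ dec : List Bool → Fin m,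
    ∀ i, ∃ c : Fin (Nat.clog 2 m) → Bool, dec (List.ofFn c) = i := by
  classical
  obtain ⟨enc⟩ : Nonempty (Fin m ↪ (Fin (Nat.clog 2 m) → Bool)) := by
    rw [Function.Embedding.nonempty_iff_card_le, Fintype.card_fin, Fintype.card_fun,
      Fintype.card_bool, Fintype.card_fin]
    exact Nat.le_pow_clog (by norm_num) m
  refine ⟨fun l => if h : ∃ i, List.ofFn (enc i) = l then h.choose else ⟨0, hm⟩, fun i =>
    ⟨enc i, ?_⟩⟩
  have h : ∃ i', List.ofFn (enc i') = List.ofFn (enc i) := ⟨i, rfl⟩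
  show (if h : ∃ i', List.ofFn (enc i') = List.ofFn (enc i) then h.choose else ⟨0, hm⟩) = i
  rw [dif_pos h]
  exact enc.injective (List.ofFn_injective h.choose_spec)

/-- A string with given parts. -/
theorem exists_parts {k q : ℕ} (c : Fin k → Fin q → Bool) : ∃ z : List Bool, z.length = k * q ∧
    ∀ a : Fin k, part q a.1 z = List.ofFn (c a) := by
  classical
  let z : List Bool := List.ofFn fun i : Fin (k * q) =>
    if h : i.1 / q < k ∧ i.1 % q < q then c ⟨i.1 / q, h.1⟩ ⟨i.1 % q, h.2⟩ else false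
  have hz : z.length = k * q := List.length_ofFn
  refine ⟨z, hz, fun a => ?_⟩
  have hoff : a.1 * q + q ≤ z.length := by
    have h1 : (a.1 + 1) * q ≤ k * q := Nat.mul_le_mul_right _ a.2
    have h2 : (a.1 + 1) * q = a.1 * q + q := by ring
    omega
  refine (chunk_iff hoff (c a)).1 fun j => ?_
  show z[a.1 * q + j.1]? = some (c a j)
  have hj := j.2
  have hlt : a.1 * q + j.1 < k * q := by omega
  rw [List.getElem?_ofFn, dif_pos hlt]
  have hdiv : (a.1 * q + j.1) / q = a.1 := by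
    rw [mul_comm, Nat.mul_add_div (by omega), Nat.div_eq_of_lt hj, add_zero]
  have hmod : (a.1 * q + j.1) % q = j.1 := by
    rw [mul_comm, Nat.mul_add_mod, Nat.mod_eq_of_lt hj]
  have h : (a.1 * q + j.1) / q < k ∧ (a.1 * q + j.1) % q < q := by
    rw [hdiv, hmod]
    exact ⟨a.2, hj⟩
  rw [dif_pos h]
  have e1 : (⟨(a.1 * q + j.1) / q, h.1⟩ : Fin k) = a := Fin.ext hdiv
  have e2 : (⟨(a.1 * q + j.1) % q, h.2⟩ : Fin q) = j := Fin.ext hmod
  rw [e1, e2]

/-- The clique function. -/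
theorem tree_leaf {n k q : ℕ} {dec : List Bool → Fin n}
    (hdec : ∀ i, ∃ c : Fin q → Bool, dec (List.ofFn c) = i) (x : Sym2 (Fin n) → Prop) :
    Tree n k false [] x ↔ ∃ z : List Bool, z.length = k * q ∧ Leaf k q dec z x := by
  classical
  choose enc henc using hdec
  constructor
  · rintro ⟨A, hA, hcl⟩
    let f : Fin k ≃ A := (finCongr hA.symm).trans A.equivFin.symm
    obtain ⟨z, hz, hp⟩ := exists_parts fun a => enc (f a).1
    refine ⟨z, hz, fun a b hab => ?_⟩
    have e1 : ∀ a, dec (part q a.1 z) = (f a).1 := fun a => by rw [hp, henc]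
    rw [e1, e1]
    have hne : (f a).1 ≠ (f b).1 := by
      intro h
      have := f.injective (Subtype.ext h)
      exact absurd this hab.ne
    exact ⟨hne, hcl _ (f a).2 _ (f b).2 hne⟩
  · rintro ⟨z, _, hL⟩
    let v : Fin k → Fin n := fun a => dec (part q a.1 z)
    have hv : ∀ a b : Fin k, a ≠ b → v a ≠ v b ∧ x s(v a, v b) := by
      intro a b hab
      rcases lt_or_gt_of_ne hab with h | h
      · exact hL a b h
      · obtain ⟨h1, h2⟩ := hL b a h
        refine ⟨h1.symm, ?_⟩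
        rw [Sym2.eq_swap]
        exact h2
    have hinj : Function.Injective v := by
      intro a b h
      by_contra hab
      exact (hv a b hab).1 h
    refine ⟨univ.image v, ?_, ?_⟩
    · rw [Finset.card_image_of_injective _ hinj, Finset.card_univ, Fintype.card_fin]
    · intro u hu w hw huw
      obtain ⟨a, _, rfl⟩ := Finset.mem_image.1 hu
      obtain ⟨b, _, rfl⟩ := Finset.mem_image.1 hw
      exact (hv a b fun h => huw (by rw [h])).2

/-- The dual. -/
theorem tree_leaf' {n k : ℕ} (x : Sym2 (Fin n) → Prop) :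
    Tree n k true [] x ↔ ¬ Tree n k false [] fun e => ¬ x e := by
  show (∀ A : Finset (Fin n), A.card = k → ∃ u ∈ A, ∃ v ∈ A, u ≠ v ∧ x s(u, v)) ↔
    ¬ ∃ A : Finset (Fin n), A.card = k ∧ ∀ u ∈ A, ∀ v ∈ A, u ≠ v → ¬ x s(u, v)
  push Not
  exact Iff.rfl

end Pool.Agent.H27.MH
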