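import Pool.Agent.H27.MH.Leaf

/-!
The alternating compositions of the clique function are computed by small circuits with few
quantified bits; every monotone function is computed with one more block of bits.
-/

namespace Pool.Agent.H27.MH

open Finset
open Pool.Agent.H4.MH

theorem quant_congr : ∀ (qs : List ℕ) (b : Bool) {P P' : List Bool → Prop},
    (∀ y : List Bool, y.length = qs.sum → (P y ↔ P' y)) → (Quant b qs P ↔ Quant b qs P')
  | [], b, P, P', h => by
    cases b <;> exact h [] rfl
  | q :: qs, b, P, P', h => by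
    have h1 : ∀ y : List Bool, y.length = q → ∀ b', (Quant b' qs (fun z => P (y ++ z)) ↔
        Quant b' qs fun z => P' (y ++ z)) := by
      intro y hy b'
      refine quant_congr qs b' fun z hz => h _ ?_
      rw [List.length_append, hy, hz, List.sum_cons]
    cases b with
    | true => exact exists_congr fun y => and_congr_right fun hy => h1 y hy false
    | false => exact forall_congr' fun y => imp_congr_right fun hy => h1 y hy true

theorem quant_not : ∀ (qs : List ℕ) (b : Bool) (P : List Bool → Prop),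
    Quant (!b) qs (fun y => ¬ P y) ↔ ¬ Quant b qs P
  | [], b, P => by
    cases b <;> exact Iff.rfl
  | q :: qs, b, P => by
    cases b with
    | true =>
      show (∀ y : List Bool, y.length = q → Quant true qs fun z => ¬ P (y ++ z)) ↔
        ¬ ∃ y : List Bool, y.length = q ∧ Quant false qs fun z => P (y ++ z)
      push Not
      exact forall_congr' fun y => imp_congr_right fun _ => quant_not qs false _
    | false =>
      show (∃ y : List Bool, y.length = q ∧ Quant false qs fun z => ¬ P (y ++ z)) ↔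
        ¬ ∀ y : List Bool, y.length = q → Quant true qs fun z => P (y ++ z)
      push Not
      exact exists_congr fun y => and_congr_right fun _ => quant_not qs true _

/-- A condition on the first block. -/
theorem quant_and : ∀ (qs : List ℕ) (b : Bool) (p : Prop) (P : List Bool → Prop),
    Quant b qs (fun y => p ∧ P y) ↔ p ∧ Quant b qs P
  | [], b, p, P => by
    cases b <;> exact Iff.rfl
  | q :: qs, b, p, P => by
    cases b with
    | true =>
      show (∃ y : List Bool, y.length = q ∧ Quant false qs fun z => p ∧ P (y ++ z)) ↔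
        p ∧ ∃ y : List Bool, y.length = q ∧ Quant false qs fun z => P (y ++ z)
      simp only [quant_and qs false]
      constructor
      · rintro ⟨y, hy, hp, h⟩
        exact ⟨hp, y, hy, h⟩
      · rintro ⟨hp, y, hy, h⟩
        exact ⟨y, hy, hp, h⟩
    | false =>
      show (∀ y : List Bool, y.length = q → Quant true qs fun z => p ∧ P (y ++ z)) ↔
        p ∧ ∀ y : List Bool, y.length = q → Quant true qs fun z => P (y ++ z)
      simp only [quant_and qs true]
      constructor
      · intro h
        exact ⟨(h (List.replicate q true) (List.length_replicate)).1, fun y hy => (h y hy).2⟩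
      · rintro ⟨hp, h⟩ y hy
        exact ⟨hp, h y hy⟩

theorem tree_not (n k : ℕ) : ∀ (ms : List ℕ) (b : Bool) (x : Var n ms → Prop),
    Tree n k (!b) ms x ↔ ¬ Tree n k b ms fun v => ¬ x v
  | [], b, x => by
    cases b with
    | false => exact tree_leaf' x
    | true =>
      have h := tree_leaf' (n := n) (k := k) fun v => ¬ x v
      have e : (fun e => ¬ ¬ x e) = x := funext fun e => propext not_not
      constructor
      · intro h1 h2
        refine h.1 h2 ?_
        show Tree n k false [] fun e => ¬ ¬ x e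
        rw [e]
        exact h1
      · intro h1
        by_contra h2
        refine h1 (h.2 ?_)
        show ¬ Tree n k false [] fun e => ¬ ¬ x e
        rw [e]
        exact h2
  | m :: ms, b, x => by
    cases b with
    | true =>
      show (∀ i, Tree n k true ms fun v => x (i, v)) ↔
        ¬ ∃ i, Tree n k false ms fun v => ¬ x (i, v)
      push Not
      exact forall_congr' fun i => tree_not n k ms false _
    | false =>
      show (∃ i, Tree n k false ms fun v => x (i, v)) ↔
        ¬ ∀ i, Tree n k true ms fun v => ¬ x (i, v)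
      push Not
      exact exists_congr fun i => tree_not n k ms true _

theorem two_pow_clog_le {m : ℕ} (hm : 0 < m) : 2 ^ Nat.clog 2 m ≤ 2 * m := by
  rcases Nat.lt_or_ge 1 m with h | h
  · have h1 := Nat.pow_pred_clog_lt_self (b := 2) (by norm_num) h
    have h2 : 0 < Nat.clog 2 m := Nat.clog_pos (by norm_num) h
    obtain ⟨c, hc⟩ : ∃ c, Nat.clog 2 m = c + 1 := ⟨Nat.clog 2 m - 1, by omega⟩
    rw [hc, Nat.pred_succ] at h1
    rw [hc, pow_succ]
    omega
  · have : m = 1 := by omega
    subst this
    norm_num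

/-- The blocks of bits. -/
def blocks (n k m : ℕ) (ms : List ℕ) : List ℕ :=
  ms.map (Nat.clog 2) ++ [Nat.clog 2 m + k * Nat.clog 2 n]

/-- The statement for the first quantifier `b`. -/
def Holds (n k m : ℕ) (ms : List ℕ) (b : Bool) : Prop :=
  ∃ (s : ℕ) (P : List Bool → (Var n (ms ++ [m]) → Prop) → Prop),
    s ≤ (ms ++ [m]).prod * (5 * k ^ 2 * n ^ 2 + 3 * ms.length + 4) ∧
    Calc (Var n (ms ++ [m])) (blocks n k m ms).sum s P ∧
    ∀ x, Tree n k b (ms ++ [m]) x ↔ Quant b (blocks n k m ms) fun y => P y x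

theorem Holds.dual {n k m : ℕ} {ms : List ℕ} (h : Holds n k m ms true) :
    Holds n k m ms false := by
  obtain ⟨s, P, hs, hP, h1⟩ := h
  refine ⟨s, fun y x => ¬ P y fun v => ¬ x v, hs, hP.dual, fun x => ?_⟩
  have h2 := tree_not n k (ms ++ [m]) true x
  have h3 := quant_not (blocks n k m ms) true fun y => P y fun v => ¬ x v
  rw [Bool.not_true] at h2 h3
  rw [h2, h3, h1]

theorem holds_base {n k m : ℕ} (hn : 0 < n) (hm : 0 < m) : Holds n k m [] true := by
  obtain ⟨decn, hdecn⟩ := exists_dec n hn
  obtain ⟨dec, hdec⟩ := exists_dec m hm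
  have hL := mux (q := Nat.clog 2 m) (leaf_calc k (Nat.clog 2 n) decn) dec
  refine ⟨m * (k * k * (2 ^ Nat.clog 2 n * 2 ^ Nat.clog 2 n) + (k * k + 1)) +
      (2 ^ Nat.clog 2 m + 1), fun y x => Leaf k (Nat.clog 2 n) decn (y.drop (Nat.clog 2 m))
      fun v => x (dec (y.take (Nat.clog 2 m)), v), ?_, ?_, ?_⟩
  · have h1 := two_pow_clog_le hm
    have h2 := two_pow_clog_le hn
    have h3 : 2 ^ Nat.clog 2 n * 2 ^ Nat.clog 2 n ≤ (2 * n) * (2 * n) := Nat.mul_le_mul h2 h2
    have h4 : k * k * (2 ^ Nat.clog 2 n * 2 ^ Nat.clog 2 n) ≤ k * k * ((2 * n) * (2 * n)) :=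
      Nat.mul_le_mul_left _ h3
    have h5 : k * k * 1 ≤ k * k * (n * n) := Nat.mul_le_mul_left _ (Nat.mul_le_mul hn hn)
    have h6 : k * k * (2 ^ Nat.clog 2 n * 2 ^ Nat.clog 2 n) + (k * k + 1) ≤
        5 * k ^ 2 * n ^ 2 + 1 := by
      have e : 5 * k ^ 2 * n ^ 2 = k * k * ((2 * n) * (2 * n)) + k * k * (n * n) := by ring
      omega
    show _ ≤ ([] ++ [m]).prod * (5 * k ^ 2 * n ^ 2 + 3 * [].length + 4)
    rw [List.nil_append, List.prod_singleton, List.length_nil, Nat.mul_zero, Nat.add_zero]
    calc m * (k * k * (2 ^ Nat.clog 2 n * 2 ^ Nat.clog 2 n) + (k * k + 1)) +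
        (2 ^ Nat.clog 2 m + 1)
        ≤ m * (5 * k ^ 2 * n ^ 2 + 1) + (2 * m + m) := by
          have := Nat.mul_le_mul_left m h6
          omega
      _ = m * (5 * k ^ 2 * n ^ 2 + 4) := by ring
  · have e : (blocks n k m []).sum = Nat.clog 2 m + k * Nat.clog 2 n := by
      simp [blocks]
    rw [e]
    exact hL
  · intro x
    show (∃ i, Tree n k false [] fun v => x (i, v)) ↔
      ∃ y : List Bool, y.length = Nat.clog 2 m + k * Nat.clog 2 n ∧
        Leaf k (Nat.clog 2 n) decn ((y ++ []).drop (Nat.clog 2 m))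
          fun v => x (dec ((y ++ []).take (Nat.clog 2 m)), v)
    simp only [List.append_nil]
    constructor
    · rintro ⟨i, hi⟩
      obtain ⟨z, hz, hzL⟩ := (tree_leaf hdecn _).1 hi
      obtain ⟨c, hc⟩ := hdec i
      have hlen : (List.ofFn c).length = Nat.clog 2 m := List.length_ofFn
      refine ⟨List.ofFn c ++ z, by rw [List.length_append, hlen, hz], ?_⟩
      rw [List.drop_left' hlen, List.take_left' hlen, hc]
      exact hzL
    · rintro ⟨y, hy, hL⟩
      refine ⟨dec (y.take (Nat.clog 2 m)), (tree_leaf hdecn _).2 ⟨y.drop (Nat.clog 2 m), ?_, hL⟩⟩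
      rw [List.length_drop, hy]
      omega

theorem holds_step {n k m m₁ : ℕ} {ms : List ℕ} (hm₁ : 0 < m₁) (h : Holds n k m ms false) :
    Holds n k m (m₁ :: ms) true := by
  obtain ⟨s, P, hs, hP, h1⟩ := h
  obtain ⟨dec, hdec⟩ := exists_dec m₁ hm₁
  have hL := mux (q := Nat.clog 2 m₁) hP dec
  refine ⟨m₁ * s + (2 ^ Nat.clog 2 m₁ + 1), fun y x => P (y.drop (Nat.clog 2 m₁))
      fun v => x (dec (y.take (Nat.clog 2 m₁)), v), ?_, ?_, fun x => ?_⟩
  · have h2 := two_pow_clog_le hm₁
    rw [List.cons_append, List.prod_cons, List.length_cons]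
    calc m₁ * s + (2 ^ Nat.clog 2 m₁ + 1)
        ≤ m₁ * ((ms ++ [m]).prod * (5 * k ^ 2 * n ^ 2 + 3 * ms.length + 4)) + (2 * m₁ + m₁) := by
          have := Nat.mul_le_mul_left m₁ hs
          omega
      _ = m₁ * ((ms ++ [m]).prod * (5 * k ^ 2 * n ^ 2 + 3 * ms.length + 4) + 3 * 1) := by ring
      _ ≤ m₁ * ((ms ++ [m]).prod * (5 * k ^ 2 * n ^ 2 + 3 * (ms.length + 1) + 4)) := by
          refine Nat.mul_le_mul_left _ ?_
          by_cases hp : (ms ++ [m]).prod = 0
          · rw [hp, Nat.zero_mul] at hs
            obtain ⟨_, out, _⟩ := hP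
            have := out.2
            omega
          · have h3 : 3 * 1 ≤ 3 * (ms ++ [m]).prod :=
              Nat.mul_le_mul_left _ (Nat.pos_of_ne_zero hp)
            calc (ms ++ [m]).prod * (5 * k ^ 2 * n ^ 2 + 3 * ms.length + 4) + 3 * 1
                ≤ (ms ++ [m]).prod * (5 * k ^ 2 * n ^ 2 + 3 * ms.length + 4) +
                  3 * (ms ++ [m]).prod := Nat.add_le_add_left h3 _
              _ = _ := by ring
      _ = m₁ * (ms ++ [m]).prod * (5 * k ^ 2 * n ^ 2 + 3 * (ms.length + 1) + 4) := by ring
  · have e : (blocks n k m (m₁ :: ms)).sum = Nat.clog 2 m₁ + (blocks n k m ms).sum := by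
      simp [blocks]
    rw [e]
    exact hL
  · show (∃ i, Tree n k false (ms ++ [m]) fun v => x (i, v)) ↔
      ∃ y : List Bool, y.length = Nat.clog 2 m₁ ∧ Quant false (blocks n k m ms)
        fun z => P ((y ++ z).drop (Nat.clog 2 m₁))
          fun v => x (dec ((y ++ z).take (Nat.clog 2 m₁)), v)
    have key : ∀ y : List Bool, y.length = Nat.clog 2 m₁ →
        ((Quant false (blocks n k m ms) fun z => P ((y ++ z).drop (Nat.clog 2 m₁))
          fun v => x (dec ((y ++ z).take (Nat.clog 2 m₁)), v)) ↔
        Tree n k false (ms ++ [m]) fun v => x (dec y, v)) := by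
      intro y hy
      rw [h1]
      refine quant_congr _ _ fun z _ => ?_
      rw [List.drop_left' hy, List.take_left' hy]
    constructor
    · rintro ⟨i, hi⟩
      obtain ⟨c, hc⟩ := hdec i
      refine ⟨List.ofFn c, List.length_ofFn, (key _ List.length_ofFn).2 ?_⟩
      rw [hc]
      exact hi
    · rintro ⟨y, hy, h2⟩
      exact ⟨dec y, (key y hy).1 h2⟩

theorem holds {n k m : ℕ} (hn : 0 < n) (hm : 0 < m) : ∀ (ms : List ℕ), (∀ i ∈ ms, 0 < i) →
    ∀ b, Holds n k m ms b
  | [], _, b => by
    cases b with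
    | true => exact holds_base hn hm
    | false => exact (holds_base hn hm).dual
  | m₁ :: ms, h, b => by
    have h1 := holds_step (k := k) (h m₁ List.mem_cons_self)
      (holds hn hm ms (fun i hi => h i (List.mem_cons_of_mem _ hi)) false)
    cases b with
    | true => exact h1
    | false => exact h1.dual

/-- **Membership.** The alternating composition of the clique function is computed by one small
circuit, monotone in `x`, with blocks of few quantified bits, which are read with their
negations. -/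
theorem tree_mem (n k : ℕ) (b : Bool) (ms : List ℕ) (m : ℕ) (hn : 0 < n) (hm : 0 < m)
    (hms : ∀ i ∈ ms, 0 < i) :
    ∃ (s : ℕ) (C : Circuit (Var n (ms ++ [m]) ⊕ (ℕ × Bool)) s) (out : Fin s),
      s ≤ (ms ++ [m]).prod * (5 * k ^ 2 * n ^ 2 + 3 * ms.length + 4) ∧
      ∀ x, Tree n k b (ms ++ [m]) x ↔
        Quant b (ms.map (Nat.clog 2) ++ [Nat.clog 2 m + k * Nat.clog 2 n])
          (fun y => C.fn out (Sum.elim x fun p => y[p.1]? = some p.2)) := by
  obtain ⟨s, P, hs, ⟨C, out, hC⟩, h⟩ := holds hn hm ms hms b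
  refine ⟨s, C, out, hs, fun x => ?_⟩
  rw [h]
  exact quant_congr _ _ fun y hy => hC y hy x

end Pool.Agent.H27.MH
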